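import Pool.Agent.Lib.MP_9708fd_lc.EMain

/-!
# MP_9708fd_lc, Q1: yes, it is consistent

There is a model of ZFC in which, for `κ = ω` and an inaccessible cardinal `λ`, there is a
nontrivial automorphism of `P(λ)/𝓘_{κ⁺}` which is trivial on all sets of cardinality `κ⁺` (indeed on
all bounded subsets of `λ`).

The model is a Boolean-valued-style forcing extension (names modulo an ultrafilter of conditions) of
the universe of types by a `<λ`-distributive notion of forcing `PP L`, where `L` is a well-order of
inaccessible type.
-/

open Cardinal Set

namespace MP9708F

/-- A well-order of type an inaccessible cardinal (the least cardinal of `Type 1` which is not the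
cardinality of a type of the universe `Type 0`). -/
abbrev LL : Type 1 := (Cardinal.univ.{0, 1}).ord.ToType

instance : InaccOrder LL where
  wf := inferInstance
  inacc := by
    rw [mk_ord_toType]
    exact IsInaccessible.univ
  lt' := fun x => by
    rw [mk_ord_toType]
    exact mk_Iio_toType_ord_lt x

end MP9708F

namespace Pool.Agent.Results.MP_9708fd_lc.Consistency

open MP9708F

/-- **Theorem.** There is a model `(M, E)` of ZFC in which there are infinite cardinals `κ < λ` and
a nontrivial automorphism of `P(λ)/𝓘_{κ⁺}` which is trivial on every subset of `λ` of cardinality
`κ⁺`. -/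
theorem result : ∃ (M : Type 2) (E : M → M → Prop), ModelsZFC E ∧ Q1 E :=
  ⟨Mod (PP LL), ME, models_zfc, q1⟩

end Pool.Agent.Results.MP_9708fd_lc.Consistency
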