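import Pool.Agent.Lib.MP_9708fd_lc.TMain

/-!
# MP_9708fd_lc: an example for Q1 lives on an inaccessible, non weakly compact cardinal

Let `κ` be an infinite cardinal and let `π` be an automorphism of `P(X)/𝓘_{κ⁺}` which is trivial on
every set of cardinality `κ⁺`.  If `π` is not trivial on `S`, then `S` contains a set `Z` on which
`π` is not trivial, such that `|Z| > κ` is strongly inaccessible without the tree property and `π`
is trivial on all smaller subsets of `S`.  In particular (`S = X`) `π` is trivial if there is no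
strongly inaccessible cardinal in `(κ, |X|]`.
-/

open Cardinal Set

namespace MP9708

universe u

variable {κ : Cardinal.{u}} [hκ : Fact (ℵ₀ ≤ κ)] {X : Type u}

/-- A lifting of an automorphism. -/
noncomputable def liftOf (π : PQ κ X ≃o PQ κ X) : Lift κ X where
  Φ A := (cl_surj (π (cl κ A))).choose
  le_iff A B := by
    show #(A \ B : Set X) ≤ κ ↔ #(_ : Set X) ≤ κ
    rw [← cl_le_iff, ← cl_le_iff, (cl_surj (π (cl κ A))).choose_spec,
      (cl_surj (π (cl κ B))).choose_spec, π.le_iff_le]
  surj B := by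
    obtain ⟨A, hA⟩ := cl_surj (π.symm (cl κ B))
    refine ⟨A, ?_⟩
    have h1 := (cl_surj (π (cl κ A))).choose_spec
    have h2 : cl κ (cl_surj (π (cl κ A))).choose = cl κ B := by
      rw [h1, hA, OrderIso.apply_symm_apply]
    exact cl_eq_iff.1 h2

theorem cl_liftOf (π : PQ κ X ≃o PQ κ X) (A : Set X) :
    cl κ ((liftOf π).Φ A) = π (cl κ A) := (cl_surj (π (cl κ A))).choose_spec

theorem trivialOn_iff (π : PQ κ X ≃o PQ κ X) (S : Set X) :
    TrivialOn π S ↔ ∃ e : X → X, Tr (liftOf π) e S := by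
  classical
  constructor
  · rintro ⟨e, he⟩
    refine ⟨fun x => if h : x ∈ S then e ⟨x, h⟩ else x, ?_⟩
    intro A hA
    have h1 := he (Subtype.val ⁻¹' A)
    have h2 : (Subtype.val '' (Subtype.val ⁻¹' A : Set S) : Set X) = A := by
      rw [Subtype.image_preimage_coe, inter_eq_right.2 hA]
    have h3 : (fun x => if h : x ∈ S then e ⟨x, h⟩ else x) '' A = e '' (Subtype.val ⁻¹' A) := by
      ext y
      constructor
      · rintro ⟨x, hx, rfl⟩
        refine ⟨⟨x, hA hx⟩, hx, ?_⟩
        simp only [hA hx, dif_pos]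
      · rintro ⟨x, hx, rfl⟩
        refine ⟨x.1, hx, ?_⟩
        simp only [x.2, dif_pos]
    rw [h2, ← cl_liftOf, ← h3, cl_eq_iff] at h1
    exact h1
  · rintro ⟨e, he⟩
    refine ⟨fun x => e x.1, fun A => ?_⟩
    have h1 := he (Subtype.val '' A) (by
      rintro _ ⟨x, _, rfl⟩
      exact x.2)
    have h3 : (fun x : S => e x.1) '' A = e '' (Subtype.val '' A) := by rw [image_image]
    rw [← cl_liftOf, h3, cl_eq_iff]
    exact h1

end MP9708

namespace Pool.Agent.Results.MP_9708fd_lc.MinimalNontrivial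

open MP9708

universe u

/-- **Theorem.** Let `κ` be an infinite cardinal and `π` an automorphism of the Boolean algebra
`P(X)/𝓘_{κ⁺}` which is trivial on every set `Y ⊆ X` of cardinality `κ⁺`.  If `π` is not trivial on
`S ⊆ X`, then there is `Z ⊆ S` such that `|Z| > κ` is strongly inaccessible and does not have the
tree property, `π` is not trivial on `Z`, and `π` is trivial on all `Y ⊆ S` with `|Y| < |Z|`. -/
theorem result (κ : Cardinal.{u}) [Fact (ℵ₀ ≤ κ)] (X : Type u) (π : PQ κ X ≃o PQ κ X)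
    (hπ : ∀ Y : Set X, #Y = Order.succ κ → TrivialOn π Y) (S : Set X) (hS : ¬ TrivialOn π S) :
    ∃ Z ⊆ S, κ < #Z ∧ (#Z).IsInaccessible ∧ ¬ TreeProperty #Z ∧ ¬ TrivialOn π Z ∧
      ∀ Y ⊆ S, #Y < #Z → TrivialOn π Y := by
  simp only [trivialOn_iff] at hπ hS ⊢
  exact main hπ S hS

end Pool.Agent.Results.MP_9708fd_lc.MinimalNontrivial
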